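import Pool.Agent.W580.SH.StmA

/-! Project SH: the types of the elements of `DSet`. -/

set_option autoImplicit false

namespace Pool.Agent.W585.SH

open Finset Pool.Agent.W580.SH

theorem inj_of_mn {R : Type} {k : ℕ} {r : Fin k → R} {c : Fin k → (R → ℝ)} (h : mn r c ≠ 0) :
    Function.Injective r := by
  intro a b hab
  by_contra hne
  apply h
  unfold mn
  refine Matrix.det_zero_of_row_eq hne ?_
  funext j
  simp [hab]

theorem coeff {a a' : Fin 2} {k k' : Fin 3} {σ σ' τ τ' : ℝ} (hσ : σ = 1 ∨ σ = -1)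
    (h1 : ∀ j : Fin 2, (if j = a then σ else 0) - (if j = a' then σ' else 0) = 0)
    (h2 : ∀ j : Fin 3, (if j = k then τ else 0) - (if j = k' then τ' else 0) =
      if j = 0 then (1 : ℝ) else if j = 1 then -1 else 0) :
    (k = 0 ∧ τ = 1) ∨ (k = 1 ∧ τ = -1) := by
  have e0 := h2 0
  have e1 := h2 1
  fin_cases k <;> fin_cases k' <;> simp at e0 e1 ⊢ <;> linarith

theorem main (h3 : S_AB3) (hC : S_CRD) : S_PT := by
  intro R _ _ S t f v κ a0 hc z hz
  obtain ⟨hz0, hp, hm⟩ := hz
  obtain ⟨hctx, hta, he⟩ := hc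
  have hinj := inj_of_mn hctx.det
  obtain ⟨yp, hyp⟩ : ∃ yp, yp = Function.update z (κ a0) (1 / 2 : ℝ) := ⟨_, rfl⟩
  obtain ⟨ym, hym⟩ : ∃ ym, ym = Function.update z (κ a0) (1 / 2 - 1 : ℝ) := ⟨_, rfl⟩
  rw [← hyp] at hp
  rw [← hym] at hm
  obtain ⟨a, σ, k, τ, hσ, hτ, hP⟩ := h3 R S t f v κ hctx yp hp
  obtain ⟨a', σ', k', τ', hσ', hτ', hM⟩ := h3 R S t f v κ hctx ym hm
  have hne : ∀ b, b ≠ a0 → κ b ≠ κ a0 := fun b hb h => hb (hinj h)
  have hpb : ∀ b, b ≠ a0 → yp (κ b) = z (κ b) := by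
    intro b hb
    rw [hyp, Function.update_of_ne (hne b hb)]
  have hmb : ∀ b, b ≠ a0 → ym (κ b) = z (κ b) := by
    intro b hb
    rw [hym, Function.update_of_ne (hne b hb)]
  have hpa : yp (κ a0) = 1 / 2 := by rw [hyp, Function.update_self]
  have hma : ym (κ a0) = 1 / 2 - 1 := by rw [hym, Function.update_self]
  obtain ⟨ξ, η, -, huniq⟩ := hC R f v κ hctx.det (yp - ym)
  have c1 : Crd f v κ (yp - ym)
      (fun j => (if j = a then (σ : ℝ) else 0) - (if j = a' then (σ' : ℝ) else 0))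
      (fun j => (if j = k then (τ : ℝ) else 0) - (if j = k' then (τ' : ℝ) else 0)) := by
    intro b
    simp only [Pi.sub_apply, sub_mul, ite_mul, zero_mul, Finset.sum_sub_distrib,
      Finset.sum_ite_eq', Finset.mem_univ, if_true]
    rw [hP b, hM b]
    simp only [Pi.add_apply, Pi.smul_apply, smul_eq_mul]
    ring
  have c2 : Crd f v κ (yp - ym) (fun _ => 0)
      (fun j => if j = 0 then (1 : ℝ) else if j = 1 then -1 else 0) := by
    intro b
    have h1 : (yp - ym) (κ b) = if b = a0 then 1 else 0 := by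
      rw [Pi.sub_apply]
      by_cases hb : b = a0
      · subst hb
        rw [hpa, hma]
        simp
      · rw [hpb b hb, hmb b hb]
        simp [hb]
    rw [h1, ← he b]
    simp [Fin.sum_univ_three]
    ring
  obtain ⟨u1, u2⟩ := huniq _ _ c1
  obtain ⟨w1, w2⟩ := huniq _ _ c2
  have hcf := coeff (a := a) (a' := a') (k := k) (k' := k') (σ := σ) (σ' := σ') (τ := τ)
    (τ' := τ') (by
      rcases hσ with h | h
      · left; rw [h]; norm_num
      · right; rw [h]; norm_num)
    (fun j => congrFun (u1.trans w1.symm) j) (fun j => congrFun (u2.trans w2.symm) j)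
  refine ⟨a, σ, τ, hσ, hτ, fun b => ?_⟩
  have hPb := hP b
  have heb := he b
  simp only [Pi.add_apply, Pi.smul_apply, smul_eq_mul] at hPb
  rcases hcf with ⟨hk, hτ1⟩ | ⟨hk, hτ1⟩
  · rw [hτ1, hk] at hPb
    rw [hτ1]
    by_cases hb : b = a0
    · subst hb
      rw [hz0]
      rw [hpa] at hPb
      simp only [if_true] at heb
      linarith
    · rw [hpb b hb] at hPb
      simp only [hb, if_false] at heb
      linarith
  · rw [hτ1, hk] at hPb
    rw [hτ1]
    by_cases hb : b = a0
    · subst hb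
      rw [hz0]
      rw [hpa] at hPb
      simp only [if_true] at heb
      linarith
    · rw [hpb b hb] at hPb
      simp only [hb, if_false] at heb
      linarith

end Pool.Agent.W585.SH

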